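import Pool.Agent.helper1.SOL.SpecN

/-!
# Project sol (MP_cad530_co): row BFN
-/

set_option autoImplicit false

namespace Pool.Agent.SOL

open Pool.Agent.helper54.SOG Finset

open scoped BigOperators

/-- the two types of vertices -/
theorem BFN_cls (hBTY : BTY_stmt) (κ : ℕ) (v : Vec (2 * κ + 1)) (hv : v ∈ VB (2 * κ + 1) (2 * κ)) :
    (∀ i, |v i| ≤ 2) ∧
    ((dp v v = 4 * κ ∧ cnt v 2 = κ ∧ cnt v 1 = 0) ∨
      (dp v v = 4 * κ - 1 ∧ cnt v 2 + 1 = κ ∧ cnt v 1 = 3)) := by
  obtain ⟨h1, h2, h3⟩ := (hBTY.1 _ _ v).1 hv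
  have h4 := hBTY.2.2.1 _ v h1
  refine ⟨h1, ?_⟩
  rcases h2 with h2 | h2
  · left
    refine ⟨?_, by omega, by omega⟩
    rw [h4]
    omega
  · right
    refine ⟨?_, by omega, by omega⟩
    rw [h4]
    omega

theorem BFN_ev {n : ℕ} (v : Vec n) (h2 : ∀ i, |v i| ≤ 2) (h1 : cnt v 1 = 0) (i : Fin n) :
    v i = 0 ∨ v i = 2 ∨ v i = -2 := by
  have h3 : |v i| ≠ 1 := by
    intro h
    unfold cnt at h1
    rw [Finset.card_eq_zero] at h1
    have h4 : i ∈ (univ.filter fun i => |v i| = 1) := Finset.mem_filter.2 ⟨Finset.mem_univ i, h⟩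
    rw [h1] at h4
    exact Finset.notMem_empty i h4
  have h4 := h2 i
  rw [abs_le] at h4
  obtain ⟨h5, h6⟩ := h4
  have h7 : v i ≠ 1 := by
    intro h
    rw [h] at h3
    exact h3 rfl
  have h8 : v i ≠ -1 := by
    intro h
    rw [h] at h3
    exact h3 rfl
  omega

theorem BFN_one {n : ℕ} (g : Fin n → ℤ) (h0 : ∀ i, 0 ≤ g i) (h1 : ∑ i, g i = 1) :
    ∃ p, g p = 1 ∧ ∀ i, i ≠ p → g i = 0 := by
  have hex : ∃ p, g p ≠ 0 := by
    by_contra hcon
    push Not at hcon
    rw [Finset.sum_congr rfl (fun i _ => hcon i), Finset.sum_const_zero] at h1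
    omega
  obtain ⟨p, hp⟩ := hex
  have h2 := Finset.add_sum_erase univ g (Finset.mem_univ p)
  have h3 : 0 ≤ ∑ i ∈ univ.erase p, g i := Finset.sum_nonneg fun i _ => h0 i
  have h4 := h0 p
  have h5 : ∑ i ∈ univ.erase p, g i = 0 := by omega
  have h6 := (Finset.sum_eq_zero_iff_of_nonneg (fun i _ => h0 i)).1 h5
  exact ⟨p, by omega, fun i hi => h6 i (Finset.mem_erase.2 ⟨hi, Finset.mem_univ i⟩)⟩

theorem BFN_perm {n k : ℕ} (z w : Vec n) (σ : Equiv.Perm (Fin n)) (h : ∀ i, |z i| = |w (σ i)|)
    (hw : w ∈ VB n k) : z ∈ VB n k ∧ dp z z = dp w w := by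
  have hdp : dp z z = dp w w := by
    unfold dp
    rw [← Equiv.sum_comp σ (fun i => w i * w i)]
    apply Finset.sum_congr rfl
    intro i _
    rw [← abs_mul_abs_self (z i), h i, abs_mul_abs_self]
  have hl : l1 z = l1 w := by
    unfold l1
    rw [← Equiv.sum_comp σ (fun i => |w i|)]
    exact Finset.sum_congr rfl fun i _ => h i
  refine ⟨⟨fun i => ?_, ?_, ?_⟩, hdp⟩
  · rw [h i]
    exact hw.1 _
  · rw [hdp]
    exact hw.2.1
  · rw [hl]
    exact hw.2.2


theorem BFN_pt (a b : ℤ) (hb : b = 0 ∨ b = 2 ∨ b = -2) (ha : |a| ≤ 2) (hab : |a - b| ≤ 2) :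
    a * b = 4 * (if b ≠ 0 ∧ |a| = 2 then 1 else 0) + 2 * (if b ≠ 0 ∧ |a| = 1 then 1 else 0) := by
  rw [abs_le] at ha
  obtain ⟨h1, h2⟩ := ha
  rcases hb with h | h | h
  · rw [h]
    simp
  · rw [h] at hab ⊢
    interval_cases a <;> simp_all
  · rw [h] at hab ⊢
    interval_cases a <;> simp_all

theorem BFN_sum {n : ℕ} (x y : Vec n) (hy : ∀ i, y i = 0 ∨ y i = 2 ∨ y i = -2)
    (hx : ∀ i, |x i| ≤ 2) (hxy : ∀ i, |(x - y) i| ≤ 2) :
    dp x y = 4 * ((univ.filter fun i => y i ≠ 0 ∧ |x i| = 2).card : ℤ) +
      2 * ((univ.filter fun i => y i ≠ 0 ∧ |x i| = 1).card : ℤ) := by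
  unfold dp
  rw [Finset.sum_congr rfl (fun i _ => BFN_pt (x i) (y i) (hy i) (hx i) (hxy i)),
    Finset.sum_add_distrib, ← Finset.mul_sum, ← Finset.mul_sum, Finset.card_filter,
    Finset.card_filter]
  push_cast
  rfl

/-- the uniqueness for `v` odd -/
theorem BFN_odd (hBTY : BTY_stmt) (κ : ℕ) (x y v : Vec (2 * κ + 1))
    (hyv : ∀ i, y i = 0 ∨ y i = 2 ∨ y i = -2) (hyy : dp y y = 4 * κ)
    (hv2 : ∀ i, |v i| ≤ 2) (hvy : dp v y = 4 * κ - 2) (hx2 : ∀ i, |x i| ≤ 2)
    (hxv : ∀ i, (x - v) i = 0 ∨ (x - v) i = 2 ∨ (x - v) i = -2) :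
    (univ.filter fun i => y i ≠ 0 ∧ |x i| = 1).card = 1 := by
  have hg : ∀ i, ∃ g : ℤ, 0 ≤ g ∧ y i * y i - v i * y i = 2 * g := by
    intro i
    have h1 := hv2 i
    rw [abs_le] at h1
    rcases hyv i with h | h | h
    · exact ⟨0, le_refl 0, by rw [h]; ring⟩
    · exact ⟨2 - v i, by omega, by rw [h]; ring⟩
    · exact ⟨2 + v i, by omega, by rw [h]; ring⟩
  choose g hg0 hg1 using hg
  have hsum : ∑ i, g i = 1 := by
    have h1 : 2 * ∑ i, g i = dp y y - dp v y := by
      unfold dp
      rw [Finset.mul_sum, ← Finset.sum_sub_distrib]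
      exact Finset.sum_congr rfl fun i _ => (hg1 i).symm
    rw [hyy, hvy] at h1
    omega
  obtain ⟨p, hp, hpu⟩ := BFN_one g hg0 hsum
  have hset : (univ.filter fun i => y i ≠ 0 ∧ |x i| = 1) = {p} := by
    ext i
    rw [Finset.mem_filter, Finset.mem_singleton]
    have h3 := hg1 i
    have h4 := hxv i
    have h5 : (x - v) i = x i - v i := rfl
    rw [h5] at h4
    have h6 := hx2 i
    rw [abs_le] at h6
    have h7 := hv2 i
    rw [abs_le] at h7
    constructor
    · rintro ⟨-, hy0, hx1⟩
      by_contra hip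
      rw [hpu i hip] at h3
      have h8 : v i = y i := by
        have h9 : (y i - v i) * y i = 0 := by linarith
        rcases mul_eq_zero.1 h9 with h | h
        · omega
        · exact absurd h hy0
      rcases abs_eq (by norm_num : (0 : ℤ) ≤ 1) |>.1 hx1 with h | h <;>
        rcases hyv i with h10 | h10 | h10 <;> omega
    · rintro rfl
      rw [hp] at h3
      have h8 : y i ≠ 0 := by
        intro h
        rw [h] at h3
        norm_num at h3
      refine ⟨Finset.mem_univ i, h8, ?_⟩
      have h9 : v i = 1 ∨ v i = -1 := by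
        rcases hyv i with h | h | h
        · exact absurd h h8
        · rw [h] at h3
          left
          omega
        · rw [h] at h3
          right
          omega
      have h11 : x i = 1 ∨ x i = -1 := by omega
      rcases h11 with h | h <;> rw [h] <;> rfl
  rw [hset, Finset.card_singleton]

theorem BFN (hCNT : CNT_stmt) (hBTY : BTY_stmt) (hSHB : SHB_stmt) : BFN_stmt := by
  intro κ hκ x y hE
  obtain ⟨hx, hy, hxy, hSS⟩ := hE
  have hk1 : 1 ≤ 2 * κ := by omega
  obtain ⟨s1, s2, s3, s4⟩ := hSHB _ _ x y hk1 hx hy hxy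
  obtain ⟨hx2, hxc⟩ := BFN_cls hBTY κ x hx
  obtain ⟨hy2, hyc⟩ := BFN_cls hBTY κ y hy
  push_cast at s1 s2 s3 s4
  have hnot : ¬ (dp x x = 2 * (2 * κ) ∨ dp y y = 2 * (2 * κ) - 1) := by
    intro h
    have h1 := s4 h
    rw [hSS] at h1
    exact h1
  have hxo : dp x x = 4 * κ - 1 ∧ cnt x 2 + 1 = κ ∧ cnt x 1 = 3 := by
    rcases hxc with h | h
    · exfalso
      apply hnot
      left
      rw [h.1]
      ring
    · exact h
  have hye : dp y y = 4 * κ ∧ cnt y 2 = κ ∧ cnt y 1 = 0 := by
    rcases hyc with h | h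
    · exact h
    · exfalso
      apply hnot
      right
      rw [h.1]
      ring
  have hyv := BFN_ev y hy2 hye.2.2
  have hxyd : dp x y = 2 * κ := s2 (Or.inr (by rw [hye.1]; ring))
  have hSy := (hBTY.2.2.2.2.2.2.1 (2 * κ + 1) (2 * κ) hk1).1
  have hw : y - x ∈ VB (2 * κ + 1) (2 * κ) := by
    have h1 := hSy.neg _ hxy
    rwa [neg_sub] at h1
  have hwo : dp (y - x) (y - x) = 4 * κ - 1 := by
    rw [dp_sub_sub, dp_comm y x, hye.1, hxyd, hxo.1]
    ring
  have hxy2 := (BFN_cls hBTY κ _ hxy).1
  have hsum := BFN_sum x y hyv hx2 hxy2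
  set A : ℕ := (univ.filter fun i => y i ≠ 0 ∧ |x i| = 2).card with hA
  set B : ℕ := (univ.filter fun i => y i ≠ 0 ∧ |x i| = 1).card with hB
  rw [hxyd] at hsum
  have hAB : 2 * A + B = κ := by
    have : (2 * κ : ℤ) = 4 * (A : ℤ) + 2 * (B : ℤ) := hsum
    omega
  by_cases hB1 : B = 1
  · -- the case `b = 1`
    have hp : ∃ p, y p = 0 ∧ |x p| = 1 := by
      by_contra hcon
      push Not at hcon
      have h1 : (univ.filter fun i => |x i| = 1) = (univ.filter fun i => y i ≠ 0 ∧ |x i| = 1) := by
        ext i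
        rw [Finset.mem_filter, Finset.mem_filter]
        exact ⟨fun h => ⟨h.1, fun h0 => hcon i h0 h.2, h.2⟩, fun h => ⟨h.1, h.2.2⟩⟩
      have h2 : cnt x 1 = B := by
        unfold cnt
        rw [h1]
      rw [hxo.2.2, hB1] at h2
      omega
    have hq : ∃ q, y q = 0 ∧ |x q| = 2 := by
      by_contra hcon
      push Not at hcon
      have h1 : (univ.filter fun i => |x i| = 2) = (univ.filter fun i => y i ≠ 0 ∧ |x i| = 2) := by
        ext i
        rw [Finset.mem_filter, Finset.mem_filter]
        exact ⟨fun h => ⟨h.1, fun h0 => hcon i h0 h.2, h.2⟩, fun h => ⟨h.1, h.2.2⟩⟩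
      have h2 : cnt x 2 = A := by
        unfold cnt
        rw [h1]
      have h3 := hxo.2.1
      omega
    obtain ⟨p, hyp, hxp⟩ := hp
    obtain ⟨q, hyq, hxq⟩ := hq
    have hpq : p ≠ q := by
      rintro rfl
      rw [hxp] at hxq
      norm_num at hxq
    obtain ⟨s, hs, hs1⟩ : ∃ s : ℤ, x q = 2 * s ∧ (s = 1 ∨ s = -1) := by
      rcases abs_eq (by norm_num : (0 : ℤ) ≤ 2) |>.1 hxq with h | h
      · exact ⟨1, by omega, Or.inl rfl⟩
      · exact ⟨-1, by omega, Or.inr rfl⟩
    have hxp1 : x p = 1 ∨ x p = -1 := abs_eq (by norm_num : (0 : ℤ) ≤ 1) |>.1 hxp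
    set z : Vec (2 * κ + 1) := fun i => if i = q then -s else if i = p then -2 * x p else y i - x i
      with hz
    have hzq : z q = -s := by
      rw [hz]
      simp
    have hzp : z p = -2 * x p := by
      rw [hz]
      simp [hpq]
    have hzo : ∀ i, i ≠ p → i ≠ q → z i = y i - x i := by
      intro i h1 h2
      rw [hz]
      simp [h1, h2]
    have hzV := BFN_perm z (y - x) (Equiv.swap p q) (by
      intro i
      by_cases h1 : i = p
      · rw [h1, Equiv.swap_apply_left, hzp, Pi.sub_apply, hyq, zero_sub, abs_neg, hxq, abs_mul, hxp]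
        norm_num
      · by_cases h2 : i = q
        · rw [h2, Equiv.swap_apply_right, hzq, Pi.sub_apply, hyp, zero_sub, abs_neg, abs_neg, hxp]
          rcases hs1 with h | h <;> rw [h] <;> norm_num
        · rw [Equiv.swap_apply_of_ne_of_ne h1 h2, hzo i h1 h2, Pi.sub_apply]) hw
    have hyzV := BFN_perm (y - z) x (Equiv.swap p q) (by
      intro i
      by_cases h1 : i = p
      · rw [h1, Equiv.swap_apply_left, Pi.sub_apply, hyp, hzp, hxq, zero_sub, abs_neg, abs_mul, hxp]
        norm_num
      · by_cases h2 : i = q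
        · rw [h2, Equiv.swap_apply_right, Pi.sub_apply, hyq, hzq, zero_sub, neg_neg, hxp]
          rcases hs1 with h | h <;> rw [h] <;> norm_num
        · rw [Equiv.swap_apply_of_ne_of_ne h1 h2, Pi.sub_apply, hzo i h1 h2]
          congr 1
          ring) hx
    have hzd : dp z z = 4 * κ - 1 := by rw [hzV.2, hwo]
    have hmem : z ∈ SS (VB (2 * κ + 1) (2 * κ)) x y := by
      refine ⟨hzV.1, hyzV.1, ?_, ?_, ?_⟩
      · intro h
        have h1 : z p = x p := by rw [h]
        rw [hzp] at h1
        omega
      · intro h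
        have h1 := h.1 p
        rw [Pi.sub_apply, hzp, abs_le] at h1
        omega
      · intro v hv hxv hzv
        obtain ⟨hv2, hvc⟩ := BFN_cls hBTY κ v hv
        obtain ⟨t1, t2, t3, -⟩ := hSHB _ _ x v hk1 hx hv hxv
        obtain ⟨r1, r2, r3, -⟩ := hSHB _ _ z v hk1 hzV.1 hv hzv
        push_cast at t1 t2 t3 r1 r2 r3
        rcases hvc with hve | hvo
        · -- `v` even
          have hvv := BFN_ev v hv2 hve.2.2
          have h1 : dp x v = 2 * κ := t2 (Or.inr (by rw [hve.1]; ring))
          have h2 : dp z v = 2 * κ := r2 (Or.inr (by rw [hve.1]; ring))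
          have hterm : ∀ i, 0 ≤ v i * v i - (x i * v i + z i * v i) := by
            intro i
            by_cases h3 : i = p
            · rw [h3, hzp]
              rcases hvv p with h | h | h <;> rcases hxp1 with h' | h' <;> rw [h, h'] <;> norm_num
            · by_cases h4 : i = q
              · rw [h4, hzq, hs]
                rcases hvv q with h | h | h <;> rcases hs1 with h' | h' <;> rw [h, h'] <;> norm_num
              · rw [hzo i h3 h4]
                rcases hvv i with h | h | h <;> rcases hyv i with h' | h' | h' <;> rw [h, h'] <;>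
                  ring_nf <;> norm_num
          have hsum0 : ∑ i, (v i * v i - (x i * v i + z i * v i)) = 0 := by
            rw [Finset.sum_sub_distrib, Finset.sum_add_distrib]
            have h3 : ∑ i, v i * v i = dp v v := rfl
            have h4 : ∑ i, x i * v i = dp x v := rfl
            have h5 : ∑ i, z i * v i = dp z v := rfl
            rw [h3, h4, h5, h1, h2, hve.1]
            ring
          have hall := (Finset.sum_eq_zero_iff_of_nonneg (fun i _ => hterm i)).1 hsum0
          have hvi : ∀ i, v i = 0 ∨ v i = y i := by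
            intro i
            have h5 := hall i (Finset.mem_univ i)
            by_cases h3 : i = p
            · rw [h3, hzp] at h5
              left
              rw [h3]
              rcases hvv p with h | h | h
              · exact h
              · rcases hxp1 with h' | h' <;> rw [h, h'] at h5 <;> norm_num at h5
              · rcases hxp1 with h' | h' <;> rw [h, h'] at h5 <;> norm_num at h5
            · by_cases h4 : i = q
              · rw [h4, hzq, hs] at h5
                left
                rw [h4]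
                rcases hvv q with h | h | h
                · exact h
                · rcases hs1 with h' | h' <;> rw [h, h'] at h5 <;> norm_num at h5
                · rcases hs1 with h' | h' <;> rw [h, h'] at h5 <;> norm_num at h5
              · rw [hzo i h3 h4] at h5
                have h6 : v i * (v i - y i) = 0 := by linarith
                rcases mul_eq_zero.1 h6 with h | h
                · exact Or.inl h
                · exact Or.inr (by linarith)
          have hsum1 : ∑ i, (y i * y i - v i * v i) = 0 := by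
            rw [Finset.sum_sub_distrib]
            have h3 : ∑ i, v i * v i = dp v v := rfl
            have h4 : ∑ i, y i * y i = dp y y := rfl
            rw [h3, h4, hve.1, hye.1]
            ring
          have hall1 := (Finset.sum_eq_zero_iff_of_nonneg (fun i _ => by
            rcases hvi i with h | h
            · rw [h, mul_zero, sub_zero]
              exact mul_self_nonneg _
            · rw [h, sub_self])).1 hsum1
          funext i
          have h5 := hall1 i (Finset.mem_univ i)
          rcases hvi i with h | h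
          · rw [h, mul_zero, sub_zero] at h5
            rw [h, mul_self_eq_zero.1 h5]
          · exact h
        · -- `v` odd
          exfalso
          have hxo' : dp x x ≠ 2 * (2 * κ) := by rw [hxo.1]; omega
          have hvo' : dp v v ≠ 2 * (2 * κ) := by rw [hvo.1]; omega
          have hzo' : dp z z ≠ 2 * (2 * κ) := by rw [hzd]; omega
          have h1 : dp (x - v) (x - v) = 2 * (2 * κ) :=
            t1.2 ⟨fun h => absurd h hxo', fun h => absurd h hvo'⟩
          have h2 : dp (z - v) (z - v) = 2 * (2 * κ) :=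
            r1.2 ⟨fun h => absurd h hzo', fun h => absurd h hvo'⟩
          obtain ⟨h3, h4⟩ := BFN_cls hBTY κ _ hxv
          obtain ⟨h5, h6⟩ := BFN_cls hBTY κ _ hzv
          have h7 := BFN_ev _ h3 (by
            rcases h4 with h | h
            · exact h.2.2
            · rw [h.1] at h1
              omega) q
          have h8 := BFN_ev _ h5 (by
            rcases h6 with h | h
            · exact h.2.2
            · rw [h.1] at h2
              omega) q
          rw [Pi.sub_apply, hs] at h7
          rw [Pi.sub_apply, hzq] at h8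
          omega
    rw [hSS] at hmem
    exact hmem
  · -- the case `b ≠ 1`
    have hmem : y - x ∈ SS (VB (2 * κ + 1) (2 * κ)) x y := by
      refine ⟨hw, ?_, ?_, ?_, ?_⟩
      · rw [sub_sub_cancel]
        exact hx
      · intro h
        have h1 : y = x + x := sub_eq_iff_eq_add.1 h
        have h2 : dp x y = 2 * dp x x := by
          rw [h1]
          unfold dp
          rw [Finset.mul_sum]
          apply Finset.sum_congr rfl
          intro i _
          rw [Pi.add_apply]
          ring
        rw [hxyd, hxo.1] at h2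
        omega
      · intro h
        obtain ⟨-, h1⟩ := BFN_cls hBTY κ _ h
        have h2 : dp (x - (y - x)) (x - (y - x)) = 12 * κ - 4 := by
          rw [dp_sub_sub, hwo, dp_sub_right, hxyd, hxo.1]
          ring
        rcases h1 with h1 | h1
        · rw [h2] at h1
          have := h1.1
          omega
        · rw [h2] at h1
          have := h1.1
          omega
      · intro v hv hxv hzv
        obtain ⟨hv2, hvc⟩ := BFN_cls hBTY κ v hv
        obtain ⟨t1, t2, t3, -⟩ := hSHB _ _ x v hk1 hx hv hxv
        obtain ⟨r1, r2, r3, -⟩ := hSHB _ _ (y - x) v hk1 hw hv hzv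
        push_cast at t1 t2 t3 r1 r2 r3
        rcases hvc with hve | hvo
        · have h1 : dp x v = 2 * κ := t2 (Or.inr (by rw [hve.1]; ring))
          have h2 : dp (y - x) v = 2 * κ := r2 (Or.inr (by rw [hve.1]; ring))
          rw [dp_sub_left, h1] at h2
          have h3 : dp (v - y) (v - y) = 0 := by
            rw [dp_sub_sub, dp_comm v y, hve.1, hye.1]
            linarith
          exact sub_eq_zero.1 (eq_zero_of_dp h3)
        · exfalso
          apply hB1
          have hxo' : dp x x ≠ 2 * (2 * κ) := by rw [hxo.1]; omega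
          have hvo' : dp v v ≠ 2 * (2 * κ) := by rw [hvo.1]; omega
          have h1 : dp (x - v) (x - v) = 2 * (2 * κ) :=
            t1.2 ⟨fun h => absurd h hxo', fun h => absurd h hvo'⟩
          have h2 : dp x v = 2 * κ - 1 := t3 (by rw [hxo.1]; ring) (by rw [hvo.1]; ring)
          have h3 : dp (y - x) v = 2 * κ - 1 := r3 (by rw [hwo]; ring) (by rw [hvo.1]; ring)
          rw [dp_sub_left, h2] at h3
          obtain ⟨h4, h5⟩ := BFN_cls hBTY κ _ hxv
          have h6 := BFN_ev _ h4 (by
            rcases h5 with h | h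
            · exact h.2.2
            · rw [h.1] at h1
              omega)
          rw [hB]
          exact BFN_odd hBTY κ x y v hyv hye.1 hv2 (by rw [dp_comm]; linarith) hx2 h6
    rw [hSS] at hmem
    exact hmem

end Pool.Agent.SOL
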